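import Pool.Agent.Helper10.EN.S12
import Pool.Agent.Helper78.TR.Defs

/-! TR-D (MP_540de1_nt): the sieve for the palindromes in a residue class (helper44). -/

set_option autoImplicit false

namespace Pool.Agent.Helper44.TR

open Finset Filter Pool.Agent.Helper10 Pool.Agent.Helper10.P5 Pool.Agent.Helper10.P4
  Pool.Agent.Helper10.P3 Pool.Agent.Helper10.SQ Pool.Agent.Helper10.EN Pool.Agent.Helper78.TR

lemma dvd_mp (m t p : ℕ) (hm : 0 < m) (ht : 0 < t) (hp : p.Prime) (hpm : p ∣ m) (hpt : p ∣ t) :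
    p ∣ mp m t := by
  unfold mp
  have h1 : p ∈ m.primeFactors := Nat.mem_primeFactors.2 ⟨hp, hpm, by omega⟩
  refine dvd_trans ?_ (Finset.dvd_prod_of_mem (fun p => p ^ t.factorization p) h1)
  have h2 : t.factorization p ≠ 0 := by
    have := (hp.dvd_iff_one_le_factorization (by omega)).1 hpt
    omega
  exact dvd_pow_self p h2

/-- The sifted pairs. -/
lemma sift_eq (n m a T : ℕ) (x : ℝ) (hm : 0 < m) (hm10 : m.Coprime 10) (hx : (m : ℝ) ≤ Real.exp x)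
    (hmp1 : ∀ t : ℕ, 0 < t → (mp m t = 1 ↔ t.Coprime m)) :
    sift (EA n m a T) (FA n m) (zf x) =
      (sift (EC n m a) (FPal n) (zf x)) ×ˢ ((Icc 1 T).filter (fun t => t.Coprime m)) := by
  ext ⟨e, t⟩
  unfold sift EA
  simp only [mem_filter, mem_product, mem_Icc]
  constructor
  · rintro ⟨⟨he, ht1, ht2⟩, h⟩
    have hcop : t.Coprime m := by
      by_contra hn
      obtain ⟨p, hp, hpt, hpm⟩ := Nat.Prime.not_coprime_iff_dvd.1 hn
      have hpm' : p ≤ m := Nat.le_of_dvd hm hpm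
      have hp0 : (0 : ℝ) < p := by exact_mod_cast hp.pos
      have h1 : p ∈ PP (zf x) := by
        rw [mem_PP_zf]
        refine ⟨⟨hp, Nat.Coprime.coprime_dvd_left hpm hm10⟩, ?_⟩
        rw [Real.log_le_iff_le_exp hp0]
        exact le_trans (by exact_mod_cast hpm') hx
      refine h p h1 ?_
      unfold FA
      exact Dvd.dvd.mul_left (dvd_mp m t p hm (by omega) hp hpm hpt) _
    refine ⟨⟨he, fun p hp hd => h p hp ?_⟩, ⟨ht1, ht2⟩, hcop⟩
    unfold FA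
    exact Dvd.dvd.mul_right hd _
  · rintro ⟨⟨he, h⟩, ⟨ht1, ht2⟩, hcop⟩
    refine ⟨⟨he, ht1, ht2⟩, fun p hp hd => h p hp ?_⟩
    unfold FA at hd
    simp only at hd
    rwa [(hmp1 t (by omega)).2 hcop, mul_one] at hd

theorem sieveA_of (hmp1 : ∀ m t : ℕ, 0 < m → 0 < t → (mp m t = 1 ↔ t.Coprime m))
    (hcc : ∀ T m : ℕ, 0 < m → m ∣ T →
      (((Icc 1 T).filter (fun t => t.Coprime m)).card : ℝ) = T * ((m.totient : ℝ) / m))
    (herr : ∀ k n m a Q : ℕ, 1 ≤ n → 0 < m → m.Coprime 10 → a.Coprime m →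
      errK k (rA n m a Q.factorial) Q ≤
        (Q.factorial : ℝ) * (hsum k Q * errK k (rP n) (m * Q))) :
    ∃ (j : ℕ) (Λ : ℝ), ∀ lam : ℝ, Λ ≤ lam → ∀ n m a : ℕ, 1 ≤ n → 0 < m →
    m.Coprime 10 → a.Coprime m → (m : ℝ) ≤ Real.exp ((1000 : ℝ) / 5216 * lam) →
    ((m : ℝ) / m.totient) * (4 * 10 ^ n / m / (2 / 5 * lam) * (19 / 1000) -
      lam ^ j * (hsum j ⌊2 * Real.exp lam⌋₊ * errK j (rP n) (m * ⌊2 * Real.exp lam⌋₊))) ≤
    ∑ e ∈ sift (EC n m a) (FPal n) (zf ((1000 : ℝ) / 5216 * lam)), wA n lam e := by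
  obtain ⟨j, Λ, hmain⟩ := numW
  refine ⟨j, max Λ 0, fun lam hlam n m a hn hm hm10 ha hmle => ?_⟩
  have hl1 : Λ ≤ lam := (le_max_left _ _).trans hlam
  have hl0 : 0 ≤ lam := (le_max_right _ _).trans hlam
  obtain ⟨Q, hQ⟩ : ∃ Q : ℕ, Q = ⌊2 * Real.exp lam⌋₊ := ⟨_, rfl⟩
  rw [← hQ]
  have hX0 : 0 ≤ XA n m Q.factorial := by
    unfold XA
    positivity
  have h := hmain lam hl1 _ (EA n m a Q.factorial) (FA n m) (XA n m Q.factorial)
    (rA n m a Q.factorial) ⟨hX0, fun q => abs_nonneg _, fun q _ _ => le_refl _⟩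
  rw [← hQ, sift_eq n m a Q.factorial _ hm hm10 hmle (fun t ht => hmp1 m t hm ht),
    Finset.sum_product] at h
  have hin : ∀ e ∈ sift (EC n m a) (FPal n) (zf ((1000 : ℝ) / 5216 * lam)),
      ∑ t ∈ (Icc 1 Q.factorial).filter (fun t => t.Coprime m),
        (1 - 8645 / 10000 * ∑ p ∈ (PC ((1000 : ℝ) / 5216 * lam) (5137 / 5216 * lam)).filter
          (fun p => p ∣ FA n m (e, t)), (1 - Real.log p / (5137 / 5216 * lam))) =
      (((Icc 1 Q.factorial).filter (fun t => t.Coprime m)).card : ℝ) * wA n lam e := by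
    intro e _
    rw [← nsmul_eq_mul, ← Finset.sum_const]
    refine Finset.sum_congr rfl fun t ht => ?_
    obtain ⟨ht1, ht2⟩ := mem_filter.1 ht
    have ht0 : 0 < t := (mem_Icc.1 ht1).1
    have e1 : FA n m (e, t) = FPal n e := by
      unfold FA
      simp only
      rw [(hmp1 m t hm ht0).2 ht2, mul_one]
    rw [e1]
    rfl
  rw [Finset.sum_congr rfl hin, ← Finset.mul_sum] at h
  have hmQ : m ∣ Q.factorial := by
    apply Nat.dvd_factorial hm
    rw [hQ]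
    apply Nat.le_floor
    have h1 : Real.exp ((1000 : ℝ) / 5216 * lam) ≤ Real.exp lam :=
      Real.exp_le_exp.2 (by nlinarith)
    have h2 := Real.exp_pos lam
    linarith
  rw [hcc _ m hm hmQ] at h
  have hE := herr j n m a Q hn hm hm10 ha
  have hT : (0 : ℝ) < (Q.factorial : ℝ) := by exact_mod_cast Nat.factorial_pos Q
  have hm0 : (0 : ℝ) < m := by exact_mod_cast hm
  have hφ : (0 : ℝ) < (m.totient : ℝ) := by exact_mod_cast Nat.totient_pos.2 hm
  obtain ⟨W, hW⟩ : ∃ W : ℝ, W = ∑ e ∈ sift (EC n m a) (FPal n)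
    (zf ((1000 : ℝ) / 5216 * lam)), wA n lam e := ⟨_, rfl⟩
  rw [← hW] at h ⊢
  obtain ⟨T, hTe⟩ : ∃ T : ℝ, T = (Q.factorial : ℝ) := ⟨_, rfl⟩
  obtain ⟨R, hR⟩ : ∃ R : ℝ, R = hsum j Q * errK j (rP n) (m * Q) := ⟨_, rfl⟩
  obtain ⟨G, hG⟩ : ∃ G : ℝ, G = 4 * 10 ^ n / m / (2 / 5 * lam) * (19 / 1000) := ⟨_, rfl⟩
  have eX : XA n m Q.factorial / (2 / 5 * lam) * (19 / 1000) = T * G := by
    unfold XA
    rw [hG, hTe]
    ring
  rw [eX] at h
  rw [← hTe, ← hR] at hE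
  rw [← hTe] at h hT
  rw [← hR, ← hG]
  have hlj : 0 ≤ lam ^ j := pow_nonneg hl0 j
  have h3 : T * (G - lam ^ j * R) ≤ T * ((m.totient : ℝ) / m) * W := by
    have h4 := mul_le_mul_of_nonneg_left hE hlj
    nlinarith
  have h5 : G - lam ^ j * R ≤ (m.totient : ℝ) / m * W := by
    have h6 : T * (G - lam ^ j * R) ≤ T * ((m.totient : ℝ) / m * W) := by
      rw [← mul_assoc]
      exact h3
    exact le_of_mul_le_mul_left h6 hT
  calc (m : ℝ) / m.totient * (G - lam ^ j * R) ≤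
        (m : ℝ) / m.totient * ((m.totient : ℝ) / m * W) :=
        mul_le_mul_of_nonneg_left h5 (by positivity)
    _ = W := by field_simp

end Pool.Agent.Helper44.TR
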